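import Pool.Agent.R597.Fr9

/-!
# The truth lemma for Friedman's class forcing `F`

Let `M` be a countable transitive model of ZF. A generic filter `G` for Friedman's forcing yields a
bijection `F` from `ω` onto `M`, and the relation `E` given by `i E j ↔ F i ∈ F j` is described by
the conditions without function. By recursion on `n` there are names in `M` for the truth values in
`(ω, E)`, that is, in `(M, ∈)`, of all the formulas of level `n` (codes, at all sequences of natural
numbers). From these names one gets two names `σ`, `τ` in `M` such that `ev G σ = ev G τ` holds if
and only if there is no `n ≥ 1` such that the elements `F i`, `i < n`, are in `F n`, and `F n`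
reflects all the existential statements of level `n` with parameters from `F n`. Below every
condition there is a generic filter for which there is such an `n` (put a reflecting set in the next
place). But there is also a generic filter for which there is no such `n`: a dense class
that is definable by a formula of level `n` can be met, below a condition whose values are in
reflecting sets in the right order, by a condition of the same kind.
-/

set_option autoImplicit false

namespace Pool.Agent.Results.MP_2c70cf_lc.TruthLemmaFails

open Pool.Agent.W868 Pool.Agent.W868.GM Pool.Agent.R597
open ZFSet (pair)

/-- For all countable transitive models `M` of ZF, Friedman's forcing is a partial order that is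
definable over `M`, and it does not satisfy the truth lemma over `M`, not even for the formula
`v 0 = v 1`. And there is a countable transitive model of ZFC. -/
theorem result : (∀ M : ZFSet.{0}, {x | x ∈ M}.Countable → IsZF {x | x ∈ M} →
      IsClassForcing (DefC M) (FP M) (FL M) ∧
      ¬ TruthLemma M (FP M) (FL M) (.eq (.inl 0) (.inl 1) : Fml Empty 2)) ∧
    ∃ M : ZFSet.{0}, {x | x ∈ M}.Countable ∧ IsZFC {x | x ∈ M} :=
  ⟨fun _ hc hM => ⟨classForcing hM, not_truthLemma hM hc⟩, exists_ctm⟩

end Pool.Agent.Results.MP_2c70cf_lc.TruthLemmaFails
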